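import Pool.Agent.helper83.ORE.SpecDE

/-!
# Project ore (MP_561ff4_al), row DEL: the element `e = E_u` as a product of long root elements.
-/

set_option autoImplicit false
set_option linter.unusedVariables false

namespace Pool.Agent.ORE

open Module Pool.Agent.GS

open scoped BigOperators

noncomputable section

variable {F V : Type} [Field F] [AddCommGroup V] [Module F V]

/-- A product of `d` long root elements with mutually orthogonal singular vectors. -/
theorem DEL_prod (dbl : DBL_stmt) {Q : QuadraticForm F V} (h2 : (2 : F) = 0) (so : SO Q)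
    {y : Equiv.Perm V} (hy : Bl Q y 2) : ∀ (d : ℕ) (a b : Fin d → V), (∀ l, Q (a l) = 0) →
    (∀ l, Q (b l) = 0) → (∀ l l', pb Q (a l) (a l') = 0) → (∀ l l', pb Q (b l) (b l') = 0) →
    (∀ l l', pb Q (a l) (b l') = 0) →
    ∃ e ∈ OmQ Q, Gq Q y (2 * d) e ∧ ∀ x, e x = x + ∑ l, (pb Q x (a l) • b l + pb Q x (b l) • a l)
  | 0, a, b, _, _, _, _, _ =>
    ⟨1, (OmQ Q).one_mem, Gq.one _, fun x => by
      rw [Finset.univ_eq_empty, Finset.sum_empty, add_zero]; rfl⟩
  | d + 1, a, b, ha, hb, haa, hbb, hab => by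
    obtain ⟨e, he, hg, hx⟩ := DEL_prod dbl h2 so hy d (fun l => a l.castSucc)
      (fun l => b l.castSucc) (fun l => ha _) (fun l => hb _) (fun l l' => haa _ _)
      (fun l l' => hbb _ _) (fun l l' => hab _ _)
    have hba : ∀ l l', pb Q (b l) (a l') = 0 := fun l l' => by rw [pb_symm, hab]
    refine ⟨sq Q (a (Fin.last d)) (b (Fin.last d)) * e,
      (OmQ Q).mul_mem (so _ _ (ha _) (hab _ _)) he, ?_, fun x => ?_⟩
    · have h1 := (dbl Q h2 y 2 hy _ _ (ha (Fin.last d)) (hb (Fin.last d))
        (hab (Fin.last d) (Fin.last d))).mul hg (sq_mem Q _ _).1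
      have e2 : 2 + 2 * d = 2 * (d + 1) := by ring
      rw [e2] at h1
      exact h1
    · have ea : pb Q (e x) (a (Fin.last d)) = pb Q x (a (Fin.last d)) := by
        rw [hx, map_add, LinearMap.add_apply, map_sum, LinearMap.sum_apply, Finset.sum_eq_zero,
          add_zero]
        intro l _
        rw [map_add, LinearMap.add_apply, map_smul, map_smul, LinearMap.smul_apply,
          LinearMap.smul_apply, hba, haa, smul_zero, smul_zero, add_zero]
      have eb : pb Q (e x) (b (Fin.last d)) = pb Q x (b (Fin.last d)) := by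
        rw [hx, map_add, LinearMap.add_apply, map_sum, LinearMap.sum_apply, Finset.sum_eq_zero,
          add_zero]
        intro l _
        rw [map_add, LinearMap.add_apply, map_smul, map_smul, LinearMap.smul_apply,
          LinearMap.smul_apply, hab, hbb, smul_zero, smul_zero, add_zero]
      rw [Equiv.Perm.mul_apply, sq_apply h2 (ha _) (hab _ _), ea, eb, hb, zero_mul, zero_smul,
        add_zero, hx, Fin.sum_univ_castSucc]
      abel

/-- `b(p, w u) = ((p star u) star w).im` in characteristic two. -/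
theorem DEL_b {E : Type} [Field E] (h2 : (2 : E) = 0) {ρ : E} (p u w : QL ρ) :
    p.re * (w * u).im + p.im * (w * u).re = ((p * star u) * star w).im := by
  simp only [QuadraticAlgebra.re_mul, QuadraticAlgebra.im_mul, QuadraticAlgebra.re_star,
    QuadraticAlgebra.im_star]
  linear_combination (w.re * u.im * p.re + w.im * u.re * p.re + w.im * u.im * p.re) * h2

/-- The norm is multiplicative. -/
theorem DEL_N {E : Type} [Field E] (h2 : (2 : E) = 0) {ρ : E} (w u : QL ρ) :
    (w * u).re ^ 2 + (w * u).re * (w * u).im + ρ * (w * u).im ^ 2 =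
      (w.re ^ 2 + w.re * w.im + ρ * w.im ^ 2) * (u * star u).re := by
  simp only [QuadraticAlgebra.re_mul, QuadraticAlgebra.im_mul, QuadraticAlgebra.re_star,
    QuadraticAlgebra.im_star]
  linear_combination (ρ * ((w.re * u.im + w.im * u.re + w.im * u.im) ^ 2 -
    w.im ^ 2 * (u.re ^ 2 + u.re * u.im - ρ * u.im ^ 2))) * h2

/-- The sum of real parts. -/
theorem DEL_re {E : Type} [Field E] {ρ : E} {ι : Type} (s : Finset ι) (f : ι → QL ρ) :
    (∑ i ∈ s, f i).re = ∑ i ∈ s, (f i).re := by
  classical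
  induction s using Finset.induction_on with
  | empty => rw [Finset.sum_empty, Finset.sum_empty, QuadraticAlgebra.re_zero]
  | insert a s ha ih => rw [Finset.sum_insert ha, Finset.sum_insert ha,
      QuadraticAlgebra.re_add, ih]

theorem DEL_im {E : Type} [Field E] {ρ : E} {ι : Type} (s : Finset ι) (f : ι → QL ρ) :
    (∑ i ∈ s, f i).im = ∑ i ∈ s, (f i).im := by
  classical
  induction s using Finset.induction_on with
  | empty => rw [Finset.sum_empty, Finset.sum_empty, QuadraticAlgebra.im_zero]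
  | insert a s ha ih => rw [Finset.sum_insert ha, Finset.sum_insert ha,
      QuadraticAlgebra.im_add, ih]

/-- Expansion in an orthonormal basis of `E/F`. -/
theorem DEL_exp {E : Type} [Field E] [Algebra F E] {d : ℕ} (w : Basis (Fin d) F E)
    (hw : ∀ l l', Algebra.trace F E (w l * w l') = if l = l' then 1 else 0) (c : E) :
    ∑ l, Algebra.trace F E (w l * c) • w l = c := by
  have h1 : ∀ l, Algebra.trace F E (w l * c) = w.repr c l := by
    intro l
    have h0 := w.sum_repr c
    have h3 : w l * c = ∑ i, w.repr c i • (w l * w i) := by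
      nth_rewrite 1 [← h0]
      rw [Finset.mul_sum]
      refine Finset.sum_congr rfl fun i _ => ?_
      rw [mul_smul_comm]
    rw [h3, map_sum, Finset.sum_eq_single l]
    · rw [map_smul, hw, if_pos rfl, smul_eq_mul, mul_one]
    · intro i _ hi
      rw [map_smul, hw, if_neg (Ne.symm hi), smul_zero]
    · intro h
      exact absurd (Finset.mem_univ l) h
  rw [Finset.sum_congr rfl fun l _ => by rw [h1 l]]
  exact w.sum_repr c

/-- The map `U z = ∑ᵢ ζ_i (z u_i)`. -/
def DEL_U {E : Type} [Field E] [Algebra F E] {ρ : E} {n : ℕ} [NeZero n]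
    (ζ : ZMod n → QL ρ →ₗ[F] V) (u : ZMod n → QL ρ) : QL ρ →ₗ[F] V where
  toFun z := ∑ i, ζ i (z * u i)
  map_add' z z' := by
    rw [← Finset.sum_add_distrib]
    refine Finset.sum_congr rfl fun i _ => ?_
    rw [add_mul, map_add]
  map_smul' c z := by
    rw [RingHom.id_apply, Finset.smul_sum]
    refine Finset.sum_congr rfl fun i _ => ?_
    rw [← map_smul, smul_mul_assoc]

theorem DEL (dbl : DBL_stmt) : DEL_stmt := by
  intro F E V _ _ _ _ _ _ _ _ Q h2 so y hy ρ n _ ζ π hζ hπ d w hw u hu
  have h2E : (2 : E) = 0 := by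
    have := congrArg (algebraMap F E) h2
    rwa [map_zero, map_ofNat] at this
  set U := DEL_U ζ u with hUdef
  have hU : ∀ z, U z = ∑ i, ζ i (z * u i) := fun z => rfl
  -- `Q (U z) = 0`
  have hQ : ∀ z, Q (U z) = 0 := by
    intro z
    rw [hU, Q_sum Q _ _ (fun i _ j _ hij => hζ.o i j _ _ hij)]
    have e1 : ∀ i, Q (ζ i (z * u i)) = Algebra.trace F E
        ((z.re ^ 2 + z.re * z.im + ρ * z.im ^ 2) * (u i * star (u i)).re) := by
      intro i
      rw [hζ.q, DEL_N h2E]
    rw [Finset.sum_congr rfl fun i _ => e1 i, ← map_sum, ← Finset.mul_sum, ← DEL_re, hu,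
      QuadraticAlgebra.re_zero, mul_zero, map_zero]
  have hB : ∀ z z', pb Q (U z) (U z') = 0 := by
    intro z z'
    have h1 := Q_add Q (U z) (U z')
    rw [← map_add, hQ, hQ, hQ, zero_add, zero_add] at h1
    exact h1.symm
  obtain ⟨e, he, hg, hx⟩ := DEL_prod dbl h2 so hy d (fun l => U ⟨w l, 0⟩) (fun l => U ⟨0, w l⟩)
    (fun l => hQ _) (fun l => hQ _) (fun l l' => hB _ _) (fun l l' => hB _ _) (fun l l' => hB _ _)
  refine ⟨e, he, hg, fun x => ?_⟩
  rw [hx]
  congr 1
  set H : QL ρ := ∑ l, π l x * star (u l) with hH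
  have hBx : ∀ z, pb Q x (U z) = Algebra.trace F E (H * star z).im := by
    intro z
    rw [hU, map_sum, hH, Finset.sum_mul, DEL_im, map_sum]
    refine Finset.sum_congr rfl fun i _ => ?_
    rw [hπ i x, DEL_b h2E]
  have e1 : ∀ l, pb Q x (U ⟨w l, 0⟩) = Algebra.trace F E (w l * H.im) := by
    intro l
    rw [hBx]
    congr 1
    simp only [QuadraticAlgebra.im_mul, QuadraticAlgebra.re_star, QuadraticAlgebra.im_star]
    ring
  have e2 : ∀ l, pb Q x (U ⟨0, w l⟩) = Algebra.trace F E (w l * H.re) := by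
    intro l
    rw [hBx]
    congr 1
    simp only [QuadraticAlgebra.im_mul, QuadraticAlgebra.re_star, QuadraticAlgebra.im_star]
    linear_combination (-(w l * H.re)) * h2E
  have e3 : ∑ i, ζ i (H * u i) = U H := rfl
  rw [e3]
  have e4 : ∑ l, (pb Q x (U ⟨w l, 0⟩) • U ⟨0, w l⟩ + pb Q x (U ⟨0, w l⟩) • U ⟨w l, 0⟩) =
      U (∑ l, (Algebra.trace F E (w l * H.im) • (⟨0, w l⟩ : QL ρ) +
        Algebra.trace F E (w l * H.re) • (⟨w l, 0⟩ : QL ρ))) := by
    rw [map_sum]
    refine Finset.sum_congr rfl fun l _ => ?_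
    rw [map_add, map_smul, map_smul, e1, e2]
  rw [e4]
  congr 1
  refine QuadraticAlgebra.ext ?_ ?_
  · rw [DEL_re]
    nth_rewrite 2 [← DEL_exp w hw H.re]
    refine Finset.sum_congr rfl fun l _ => ?_
    rw [QuadraticAlgebra.re_add, QuadraticAlgebra.re_smul, QuadraticAlgebra.re_smul, smul_zero,
      zero_add]
  · rw [DEL_im]
    nth_rewrite 2 [← DEL_exp w hw H.im]
    refine Finset.sum_congr rfl fun l _ => ?_
    rw [QuadraticAlgebra.im_add, QuadraticAlgebra.im_smul, QuadraticAlgebra.im_smul, smul_zero,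
      add_zero]

end

end Pool.Agent.ORE
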